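import Pool.Agent.W2helper9.OP.Stm

set_option autoImplicit false

open MvPolynomial IsDedekindDomain NumberField Filter

namespace Pool.Agent.W2helper43.OP

open Pool.Agent.Helper819.Dyn (Tuple IsEnd)
open Pool.Agent.W2helper9.OP

section grad

attribute [local instance] MvPolynomial.gradedAlgebra

theorem decomp_eq {σ k : Type} [Field k] (p : MvPolynomial σ k) (i : ℕ) :
    (DirectSum.decompose (homogeneousSubmodule σ k) p i : MvPolynomial σ k) =
      homogeneousComponent i p :=
  MvPolynomial.decomposition.decompose'_apply p i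

theorem hc {σ k : Type} [Field k] {d R : ℕ} (B F : MvPolynomial σ k) (hF : F.IsHomogeneous d)
    (h : d ≤ R) : homogeneousComponent R (B * F) = homogeneousComponent (R - d) B * F := by
  have := DirectSum.coe_decompose_mul_of_right_mem_of_le (homogeneousSubmodule σ k) (a := B)
    (b := F) (i := d) (n := R) hF h
  rwa [decomp_eq, decomp_eq] at this

end grad

section nsz

variable {K : Type} [Field K] {N d : ℕ}

theorem nsz {F : Tuple K N} (hF : IsEnd d F) (j : Fin (N + 1)) :
    ∃ (r : ℕ) (A : Fin (N + 1) → MvPolynomial (Fin (N + 1)) K), X j ^ r = ∑ i, A i * F i := by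
  have h : (X j : MvPolynomial (Fin (N + 1)) K) ∈ (Ideal.span (Set.range F)).radical := by
    rw [← vanishingIdeal_zeroLocus_eq_radical (K := AlgebraicClosure K)]
    intro x hx
    have h0 : x = 0 := hF.2 x (fun i => hx _ (Ideal.subset_span ⟨i, rfl⟩))
    rw [h0]
    simp
  obtain ⟨r, hr⟩ := h
  obtain ⟨A, hA⟩ := Ideal.mem_span_range_iff_exists_fun.1 hr
  exact ⟨r, A, hA.symm⟩

theorem nsz2 {F : Tuple K N} (hF : IsEnd d F) :
    ∃ R : ℕ, d ≤ R ∧ ∀ j, ∃ A : Fin (N + 1) → MvPolynomial (Fin (N + 1)) K,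
      (∀ i, (A i).IsHomogeneous (R - d)) ∧ X j ^ R = ∑ i, A i * F i := by
  choose r A hA using nsz hF
  refine ⟨d + ∑ j, r j, Nat.le_add_right _ _, fun j => ?_⟩
  obtain ⟨R, hR⟩ : ∃ R, R = d + ∑ j, r j := ⟨_, rfl⟩
  rw [← hR]
  have hdR : d ≤ R := by omega
  have hrR : r j ≤ R := by
    have : r j ≤ ∑ j, r j := Finset.single_le_sum (fun _ _ => Nat.zero_le _) (Finset.mem_univ j)
    omega
  refine ⟨fun i => homogeneousComponent (R - d) (X j ^ (R - r j) * A j i),
    fun i => homogeneousComponent_isHomogeneous _ _, ?_⟩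
  have h1 : (X j : MvPolynomial (Fin (N + 1)) K) ^ R = ∑ i, (X j ^ (R - r j) * A j i) * F i := by
    have h2 : (X j : MvPolynomial (Fin (N + 1)) K) ^ R = X j ^ (R - r j) * X j ^ r j := by
      rw [← pow_add]; congr 1; omega
    rw [h2, hA j, Finset.mul_sum]
    exact Finset.sum_congr rfl fun i _ => by ring
  have h3 : homogeneousComponent R ((X j : MvPolynomial (Fin (N + 1)) K) ^ R) = X j ^ R := by
    rw [homogeneousComponent_of_mem (isHomogeneous_X_pow j R), if_pos rfl]
  calc (X j : MvPolynomial (Fin (N + 1)) K) ^ R = homogeneousComponent R (X j ^ R) := h3.symm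
    _ = homogeneousComponent R (∑ i, (X j ^ (R - r j) * A j i) * F i) := by rw [← h1]
    _ = ∑ i, homogeneousComponent R ((X j ^ (R - r j) * A j i) * F i) := by rw [map_sum]
    _ = _ := Finset.sum_congr rfl fun i _ => hc _ _ (hF.1 i) hdR

end nsz

section fin

variable {E : Type} [Field E] {N d : ℕ}

/-- the ideal of the fibre -/
noncomputable def Ig (G : Fin (N + 1) → MvPolynomial (Fin (N + 1)) E) (γ : Fin (N + 1) → E) :
    Ideal (MvPolynomial (Fin (N + 1)) E) :=
  Ideal.span (Set.range fun i => G i - C (γ i))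

theorem tdm (a : Fin (N + 1) →₀ ℕ) (c : E) : (monomial a c).totalDegree ≤ a.degree := by
  refine (totalDegree_monomial_le _ _).trans (le_of_eq ?_)
  rw [Finsupp.sum_fintype _ _ (fun _ => rfl), Finsupp.degree_eq_sum]
  rfl

theorem span_all (G : Fin (N + 1) → MvPolynomial (Fin (N + 1)) E) (γ : Fin (N + 1) → E)
    {R : ℕ} (hd : 1 ≤ d) (hdR : d ≤ R)
    (hA : ∀ j, ∃ A : Fin (N + 1) → MvPolynomial (Fin (N + 1)) E,
      (∀ i, (A i).IsHomogeneous (R - d)) ∧ X j ^ R = ∑ i, A i * G i) (m : ℕ) :
    ∀ p : MvPolynomial (Fin (N + 1)) E, p.totalDegree ≤ m →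
      p ∈ restrictTotalDegree (Fin (N + 1)) E ((N + 1) * R) ⊔ (Ig G γ).restrictScalars E := by
  induction m with
  | zero =>
    intro p hp
    apply Submodule.mem_sup_left
    rw [mem_restrictTotalDegree]
    omega
  | succ m ih =>
    intro p hp
    by_cases hm : m + 1 ≤ (N + 1) * R
    · apply Submodule.mem_sup_left
      rw [mem_restrictTotalDegree]
      omega
    · rw [p.as_sum]
      apply Submodule.sum_mem
      intro a ha
      have hdeg : a.degree ≤ m + 1 := by
        have h1 := le_totalDegree ha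
        rw [Finsupp.degree_eq_sum] at *
        rw [Finsupp.sum_fintype _ _ (fun _ => rfl)] at h1
        omega
      by_cases h2 : a.degree ≤ m
      · apply ih
        exact (tdm _ _).trans h2
      · have h3 : a.degree = m + 1 := by omega
        obtain ⟨j, hj⟩ : ∃ j, R ≤ a j := by
          by_contra hcon
          push Not at hcon
          have h4 : a.degree ≤ (N + 1) * R := by
            rw [Finsupp.degree_eq_sum]
            calc ∑ i, a i ≤ ∑ _i : Fin (N + 1), R := Finset.sum_le_sum fun i _ => (hcon i).le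
              _ = (N + 1) * R := by simp
          omega
        obtain ⟨A, hA1, hA2⟩ := hA j
        obtain ⟨b, hb⟩ : ∃ b : Fin (N + 1) →₀ ℕ, b = a - Finsupp.single j R := ⟨_, rfl⟩
        have hab : a = b + Finsupp.single j R := by
          rw [hb]
          exact (tsub_add_cancel_of_le (Finsupp.single_le_iff.2 hj)).symm
        have hbdeg : b.degree + R = m + 1 := by
          rw [← h3, hab, map_add, Finsupp.degree_single]
        obtain ⟨c, hc⟩ : ∃ c, c = coeff a p := ⟨_, rfl⟩
        rw [← hc]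
        have h5 : monomial a c = ∑ i, (monomial b c * A i) * G i := by
          have : monomial a c = monomial b c * X j ^ R := by
            rw [hab, X_pow_eq_monomial, monomial_mul, mul_one]
          rw [this, hA2, Finset.mul_sum]
          exact Finset.sum_congr rfl fun i _ => by ring
        have h6 : monomial a c = (∑ i, (monomial b c * A i) * C (γ i)) +
            ∑ i, (monomial b c * A i) * (G i - C (γ i)) := by
          rw [h5, ← Finset.sum_add_distrib]
          exact Finset.sum_congr rfl fun i _ => by ring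
        rw [h6]
        apply Submodule.add_mem
        · apply ih
          apply totalDegree_finsetSum_le
          intro i _
          calc ((monomial b c * A i) * C (γ i)).totalDegree
              ≤ (monomial b c * A i).totalDegree + (C (γ i)).totalDegree := totalDegree_mul _ _
            _ ≤ ((monomial b c).totalDegree + (A i).totalDegree) + 0 := by
                rw [totalDegree_C]
                exact Nat.add_le_add_right (totalDegree_mul _ _) 0
            _ ≤ (b.degree + (R - d)) + 0 := by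
                have e1 : (monomial b c).totalDegree ≤ b.degree := tdm _ _
                have e2 := (hA1 i).totalDegree_le
                omega
            _ ≤ m := by omega
        · apply Submodule.mem_sup_right
          apply Submodule.sum_mem
          intro i _
          exact Ideal.mul_mem_left _ _ (Ideal.subset_span ⟨i, rfl⟩)

theorem quot_finite (G : Fin (N + 1) → MvPolynomial (Fin (N + 1)) E) (γ : Fin (N + 1) → E)
    {R : ℕ} (hd : 1 ≤ d) (hdR : d ≤ R)
    (hA : ∀ j, ∃ A : Fin (N + 1) → MvPolynomial (Fin (N + 1)) E,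
      (∀ i, (A i).IsHomogeneous (R - d)) ∧ X j ^ R = ∑ i, A i * G i) :
    Module.Finite E (MvPolynomial (Fin (N + 1)) E ⧸ Ig G γ) := by
  refine Module.Finite.of_surjective (((Ideal.Quotient.mkₐ E (Ig G γ)).toLinearMap).comp
    (restrictTotalDegree (Fin (N + 1)) E ((N + 1) * R)).subtype) ?_
  intro q
  obtain ⟨p, rfl⟩ := Ideal.Quotient.mk_surjective q
  obtain ⟨u, hu, w, hw, huw⟩ := Submodule.mem_sup.1 (span_all G γ hd hdR hA _ p le_rfl)
  refine ⟨⟨u, hu⟩, ?_⟩
  have hw' : w ∈ Ig G γ := hw
  have h1 : (Ideal.Quotient.mk (Ig G γ)) w = 0 := Ideal.Quotient.eq_zero_iff_mem.2 hw'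
  have h2 : (Ideal.Quotient.mk (Ig G γ)) u = (Ideal.Quotient.mk (Ig G γ)) p := by
    rw [← huw, map_add, h1, add_zero]
  simpa using h2

theorem fib_finite (G : Fin (N + 1) → MvPolynomial (Fin (N + 1)) E) (γ : Fin (N + 1) → E)
    {R : ℕ} (hd : 1 ≤ d) (hdR : d ≤ R)
    (hA : ∀ j, ∃ A : Fin (N + 1) → MvPolynomial (Fin (N + 1)) E,
      (∀ i, (A i).IsHomogeneous (R - d)) ∧ X j ^ R = ∑ i, A i * G i) :
    {x : Fin (N + 1) → E | ∀ i, aeval x (G i) = γ i}.Finite := by
  classical
  have hfin := quot_finite G γ hd hdR hA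
  have hint : ∀ j : Fin (N + 1), ∃ P : Polynomial E, P.Monic ∧
      Polynomial.aeval ((Ideal.Quotient.mkₐ E (Ig G γ)) (X j)) P = 0 := by
    intro j
    obtain ⟨P, hP, hP'⟩ := (Algebra.IsIntegral.of_finite E
      (MvPolynomial (Fin (N + 1)) E ⧸ Ig G γ)).isIntegral ((Ideal.Quotient.mkₐ E (Ig G γ)) (X j))
    exact ⟨P, hP, hP'⟩
  choose P hP hP' using hint
  refine Set.Finite.subset (Set.Finite.pi' (t := fun j => {y : E | y ∈ (P j).roots})
    fun j => ?_) ?_
  · exact (P j).roots.toFinset.finite_toSet.subset fun y hy => by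
      simpa using hy
  · intro x hx
    have hker : ∀ a ∈ Ig G γ, aeval x a = 0 := by
      intro a ha
      have : Ig G γ ≤ RingHom.ker (aeval x : MvPolynomial (Fin (N + 1)) E →ₐ[E] E) := by
        unfold Ig
        rw [Ideal.span_le]
        rintro _ ⟨i, rfl⟩
        simp only [SetLike.mem_coe, RingHom.mem_ker]
        rw [map_sub, hx i]
        simp
      exact this ha
    intro j
    have h1 : (Ideal.Quotient.liftₐ (Ig G γ) (aeval x) hker)
        ((Ideal.Quotient.mkₐ E (Ig G γ)) (X j)) = x j := by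
      simp
    have h2 : Polynomial.aeval (x j) (P j) = 0 := by
      rw [← h1, Polynomial.aeval_algHom_apply, hP' j, map_zero]
    show x j ∈ (P j).roots
    rw [Polynomial.mem_roots (hP j).ne_zero]
    simpa [Polynomial.IsRoot, Polynomial.coe_aeval_eq_eval] using h2

end fin

section main

variable {K : Type} [Field K] [NumberField K] {N d : ℕ}

theorem fib_one {F : Tuple K N} (hd : 1 ≤ d) (hF : IsEnd d F)
    (γ : Fin (N + 1) → AlgebraicClosure K) :
    {x : Fin (N + 1) → AlgebraicClosure K | mp F x = γ}.Finite := by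
  obtain ⟨R, hdR, hA⟩ := nsz2 hF
  refine Set.Finite.subset (fib_finite (d := d)
    (fun i => MvPolynomial.map (algebraMap K (AlgebraicClosure K)) (F i)) γ hd hdR ?_) ?_
  · intro j
    obtain ⟨A, hA1, hA2⟩ := hA j
    refine ⟨fun i => MvPolynomial.map (algebraMap K (AlgebraicClosure K)) (A i),
      fun i => (hA1 i).map _, ?_⟩
    have := congrArg (MvPolynomial.map (algebraMap K (AlgebraicClosure K))) hA2
    simpa [map_sum, map_mul] using this
  · intro x hx i
    have : mp F x i = γ i := congrFun hx i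
    rw [← this]
    unfold mp
    simp [aeval_map_algebraMap]

theorem mp_smul {F : Tuple K N} (hF : ∀ i, (F i).IsHomogeneous d) (t : AlgebraicClosure K)
    (x : Fin (N + 1) → AlgebraicClosure K) : mp F (t • x) = t ^ d • mp F x := by
  funext i
  show aeval (t • x) (F i) = t ^ d * aeval x (F i)
  rw [aeval_def, aeval_def, eval₂_eq', eval₂_eq', Finset.mul_sum]
  refine Finset.sum_congr rfl fun a ha => ?_
  have h1 : a.degree = d := by
    have := hF i (mem_support_iff.1 ha)
    rw [Finsupp.degree_eq_weight_one]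
    exact this
  have h2 : ∏ j, (t • x) j ^ a j = t ^ d * ∏ j, x j ^ a j := by
    rw [← h1, Finsupp.degree_eq_sum, ← Finset.prod_pow_eq_pow_sum, ← Finset.prod_mul_distrib]
    refine Finset.prod_congr rfl fun j _ => ?_
    rw [Pi.smul_apply, smul_eq_mul, mul_pow]
  rw [h2]
  ring

theorem mp_zero {F : Tuple K N} (hd : 1 ≤ d) (hF : ∀ i, (F i).IsHomogeneous d) :
    mp F (0 : Fin (N + 1) → AlgebraicClosure K) = 0 := by
  have h := mp_smul hF (0 : AlgebraicClosure K) (0 : Fin (N + 1) → AlgebraicClosure K)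
  rw [zero_pow (by omega), zero_smul, zero_smul] at h
  exact h

/-- vectors with a coordinate one in a given line -/
theorem normal_finite (γ : Fin (N + 1) → AlgebraicClosure K) :
    {δ : Fin (N + 1) → AlgebraicClosure K | (∃ j, δ j = 1) ∧ PEq δ γ}.Finite := by
  refine Set.Finite.subset (Set.finite_range fun j : Fin (N + 1) => (γ j)⁻¹ • γ) ?_
  rintro δ ⟨⟨j, hj⟩, c, hc, h⟩
  refine ⟨j, ?_⟩
  have h1 : γ j = c := by rw [h]; simp [hj]
  show (γ j)⁻¹ • γ = δ
  rw [h1, h, smul_smul, inv_mul_cancel₀ hc, one_smul]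

theorem one_finite {F : Tuple K N} (hd : 1 ≤ d) (hF : IsEnd d F)
    (γ : Fin (N + 1) → AlgebraicClosure K) :
    {δ : Fin (N + 1) → AlgebraicClosure K | (∃ j, δ j = 1) ∧ PEq (mp F δ) γ}.Finite := by
  refine Set.Finite.subset (Set.Finite.biUnion (fib_one hd hF γ)
    (fun x _ => Set.finite_range fun j : Fin (N + 1) => (x j)⁻¹ • x)) ?_
  rintro δ ⟨⟨j, hj⟩, c, hc, h⟩
  obtain ⟨t, ht⟩ := IsAlgClosed.exists_pow_nat_eq c (by omega : 0 < d)
  have ht0 : t ≠ 0 := by
    rintro rfl
    rw [zero_pow (by omega)] at ht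
    exact hc ht.symm
  refine Set.mem_biUnion (x := t • δ) ?_ ⟨j, ?_⟩
  · show mp F (t • δ) = γ
    rw [mp_smul hF.1, ht, ← h]
  · show ((t • δ) j)⁻¹ • (t • δ) = δ
    rw [Pi.smul_apply, hj, smul_eq_mul, mul_one, smul_smul, inv_mul_cancel₀ ht0, one_smul]

theorem p_fib : P_FIB := by
  intro K _ _ N d F hd hF n
  induction n with
  | zero =>
    intro γ _
    exact normal_finite γ
  | succ n ih =>
    intro γ hγ
    refine Set.Finite.subset (Set.Finite.biUnion (one_finite hd hF γ)
      (t := fun ε => {δ : Fin (N + 1) → AlgebraicClosure K |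
        (∃ j, δ j = 1) ∧ PEq ((mp F)^[n] δ) ε}) (fun ε hε => ih ε ?_)) ?_
    · rintro rfl
      obtain ⟨⟨j, hj⟩, _⟩ := hε
      simp at hj
    · rintro δ ⟨hj, c, hc, h⟩
      rw [Function.iterate_succ_apply'] at h
      obtain ⟨ε, hε⟩ : ∃ ε, ε = (mp F)^[n] δ := ⟨_, rfl⟩
      rw [← hε] at h
      have hε0 : ε ≠ 0 := by
        rintro h0
        rw [h0, mp_zero hd hF.1, smul_zero] at h
        exact hγ h
      obtain ⟨l, hl⟩ : ∃ l, ε l ≠ 0 := by
        by_contra hcon
        push Not at hcon
        exact hε0 (funext hcon)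
      refine Set.mem_biUnion (x := (ε l)⁻¹ • ε) ⟨⟨l, ?_⟩, c * ε l ^ d, ?_, ?_⟩ ⟨hj, (ε l)⁻¹, ?_, ?_⟩
      · simp [hl]
      · exact mul_ne_zero hc (pow_ne_zero _ hl)
      · rw [mp_smul hF.1, smul_smul, h, inv_pow, mul_assoc, mul_inv_cancel₀ (pow_ne_zero _ hl),
          mul_one]
      · exact inv_ne_zero hl
      · rw [hε]

end main

end Pool.Agent.W2helper43.OP
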